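import Mathlib

/-!
# The conformal modulus of the slit strip (module CONF of the slit strip project, MP_35f495_pr)

`phi a z = -i ((1-a) log z + a log (z-1) - T) / π` maps the upper half plane conformally onto the strip
`0 < re < 1` minus the vertical half line `a + i y`, `y ≥ 0`.
-/

open Complex Set Filter Topology

namespace Pool.Agent.Helper15.Slit

noncomputable section

/-- open upper half plane -/
def UH : Set ℂ := {z | 0 < z.im}

/-- the strip `0 < re < 1` minus the vertical half line `{a + i y, y ≥ 0}` -/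
def slitStrip (a : ℝ) : Set ℂ := {w | 0 < w.re ∧ w.re < 1 ∧ ¬ (w.re = a ∧ 0 ≤ w.im)}

def g (a : ℝ) (z : ℂ) : ℂ := (1 - a) * log z + a * log (z - 1)

def tipR (a : ℝ) : ℝ := (1 - a) * Real.log (1 - a) + a * Real.log a

/-- the conformal map -/
def phi (a : ℝ) (z : ℂ) : ℂ := -I * (g a z - tipR a) / Real.pi

theorem g_re (a : ℝ) (z : ℂ) : (g a z).re = (1 - a) * Real.log ‖z‖ + a * Real.log ‖z - 1‖ := by
  have h1 : g a z = (((1 - a : ℝ)) : ℂ) * log z + ((a : ℝ) : ℂ) * log (z - 1) := by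
    simp [g]
  rw [h1, add_re, re_ofReal_mul, re_ofReal_mul, log_re, log_re]

theorem g_im (a : ℝ) (z : ℂ) : (g a z).im = (1 - a) * arg z + a * arg (z - 1) := by
  have h1 : g a z = (((1 - a : ℝ)) : ℂ) * log z + ((a : ℝ) : ℂ) * log (z - 1) := by
    simp [g]
  rw [h1, add_im, im_ofReal_mul, im_ofReal_mul, log_im, log_im]

theorem phi_re (a : ℝ) (z : ℂ) : (phi a z).re = (g a z).im / Real.pi := by
  rw [phi, div_ofReal_re]
  simp

theorem phi_im (a : ℝ) (z : ℂ) : (phi a z).im = -((g a z).re - tipR a) / Real.pi := by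
  rw [phi, div_ofReal_im]
  simp

theorem arg_pos_of_im_pos {z : ℂ} (h : 0 < z.im) : 0 < arg z := by
  have h1 : 0 ≤ arg z := arg_nonneg_iff.2 h.le
  rcases h1.lt_or_eq with h2 | h2
  · exact h2
  · exact absurd (arg_eq_zero_iff.1 h2.symm).2 h.ne'

theorem arg_lt_pi_of_im_pos {z : ℂ} (h : 0 < z.im) : arg z < Real.pi :=
  arg_lt_pi_iff.2 (Or.inr h.ne')

theorem sub_one_im (z : ℂ) : (z - 1).im = z.im := by simp

theorem mem_slitPlane_of_im_pos {z : ℂ} (h : 0 < z.im) : z ∈ slitPlane := by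
  rw [mem_slitPlane_iff]; exact Or.inr h.ne'

theorem hasDerivAt_g (a : ℝ) {z : ℂ} (h : 0 < z.im) :
    HasDerivAt (g a) ((1 - a) * z⁻¹ + a * (z - 1)⁻¹) z := by
  have h1 : HasDerivAt log z⁻¹ z := hasDerivAt_log (mem_slitPlane_of_im_pos h)
  have h2 : HasDerivAt (fun w : ℂ => log (w - 1)) (z - 1)⁻¹ z := by
    have h3 : HasDerivAt (fun w : ℂ => w - 1) 1 z := (hasDerivAt_id z).sub_const 1
    have h4 := h3.clog (mem_slitPlane_of_im_pos (z := z - 1) (by rw [sub_one_im]; exact h))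
    simpa using h4
  exact (h1.const_mul _).add (h2.const_mul _)

theorem inv_im_neg {z : ℂ} (h : 0 < z.im) : (z⁻¹).im < 0 := by
  rw [inv_im]
  have h1 : 0 < normSq z := normSq_pos.2 (by rintro rfl; simp at h)
  exact div_neg_of_neg_of_pos (by linarith) h1

theorem deriv_im_neg {a : ℝ} (ha : 0 < a) (ha1 : a < 1) {z : ℂ} (h : 0 < z.im) :
    ((1 - a) * z⁻¹ + a * (z - 1)⁻¹ : ℂ).im < 0 := by
  have h1 : ((1 - a) * z⁻¹ + a * (z - 1)⁻¹ : ℂ) = ((1 - a : ℝ) : ℂ) * z⁻¹ + ((a : ℝ) : ℂ) * (z - 1)⁻¹ := by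
    simp
  rw [h1, add_im, im_ofReal_mul, im_ofReal_mul]
  have h2 := inv_im_neg h
  have h3 := inv_im_neg (z := z - 1) (by rw [sub_one_im]; exact h)
  nlinarith

theorem injOn_g {a : ℝ} (ha : 0 < a) (ha1 : a < 1) : InjOn (g a) UH := by
  intro z hz w hw hzw
  by_contra hne
  have hd : w - z ≠ 0 := sub_ne_zero.2 (Ne.symm hne)
  set p : ℝ → ℂ := fun t => z + t * (w - z) with hp
  have hpim : ∀ t ∈ Icc (0 : ℝ) 1, 0 < (p t).im := by
    intro t ht
    have : (p t).im = (1 - t) * z.im + t * w.im := by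
      simp [hp]; ring
    rw [this]
    have hz' : 0 < z.im := hz
    have hw' : 0 < w.im := hw
    rcases ht.2.lt_or_eq with h1 | h1
    · have : 0 < (1 - t) * z.im := mul_pos (by linarith) hz'
      have := mul_nonneg ht.1 hw'.le
      linarith
    · rw [h1]; simpa using hw'
  have hpd : ∀ t : ℝ, HasDerivAt p (w - z) t := by
    intro t
    have h1 : HasDerivAt (fun t : ℝ => (t : ℂ)) 1 t := ofRealCLM.hasDerivAt
    have h2 := (h1.mul_const (w - z)).const_add z
    simpa [hp] using h2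
  set h : ℝ → ℝ := fun t => (g a (p t) / (w - z)).im with hh
  have hhd : ∀ t ∈ Icc (0 : ℝ) 1,
      HasDerivAt h (((1 - a) * (p t)⁻¹ + a * (p t - 1)⁻¹ : ℂ)).im t := by
    intro t ht
    have h1 : HasDerivAt (fun t : ℝ => g a (p t))
        (((1 - a) * (p t)⁻¹ + a * (p t - 1)⁻¹) * (w - z)) t :=
      (hasDerivAt_g a (hpim t ht)).comp t (hpd t)
    have h2 := h1.div_const (w - z)
    rw [mul_div_assoc, div_self hd, mul_one] at h2
    have h3 := imCLM.hasFDerivAt.comp_hasDerivAt t h2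
    simpa [hh, Function.comp_def] using h3
  have hcont : ContinuousOn h (Icc 0 1) := fun t ht => (hhd t ht).continuousAt.continuousWithinAt
  obtain ⟨c, hc, hc'⟩ := exists_hasDerivAt_eq_slope h
    (fun t => (((1 - a) * (p t)⁻¹ + a * (p t - 1)⁻¹ : ℂ)).im) (zero_lt_one) hcont
    (fun t ht => hhd t ⟨ht.1.le, ht.2.le⟩)
  have h0 : h 0 = h 1 := by
    simp [hh, hp, hzw]
  rw [h0, sub_self, zero_div] at hc'
  exact absurd hc' (ne_of_lt (deriv_im_neg ha ha1 (hpim c ⟨hc.1.le, hc.2.le⟩)))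

theorem arg_lt_arg_sub_one {z : ℂ} (h : 0 < z.im) : arg z < arg (z - 1) := by
  by_contra hcon
  push Not at hcon
  have h0 := arg_pos_of_im_pos h
  have h1 := arg_lt_pi_of_im_pos h
  have h2 := arg_pos_of_im_pos (z := z - 1) (by rw [sub_one_im]; exact h)
  have h3 := arg_lt_pi_of_im_pos (z := z - 1) (by rw [sub_one_im]; exact h)
  -- `im (z * conj (z-1)) = - im z < 0`
  have e1 : z.re = ‖z‖ * Real.cos (arg z) := (norm_mul_cos_arg z).symm
  have e2 : z.im = ‖z‖ * Real.sin (arg z) := (norm_mul_sin_arg z).symm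
  have e3 : (z - 1).re = ‖z - 1‖ * Real.cos (arg (z - 1)) := (norm_mul_cos_arg (z - 1)).symm
  have e4 : (z - 1).im = ‖z - 1‖ * Real.sin (arg (z - 1)) := (norm_mul_sin_arg (z - 1)).symm
  have e5 : z.im * (z - 1).re - z.re * (z - 1).im = - z.im := by
    simp; ring
  have e6 : z.im * (z - 1).re - z.re * (z - 1).im
      = ‖z‖ * ‖z - 1‖ * Real.sin (arg z - arg (z - 1)) := by
    rw [Real.sin_sub]
    rw [e3, e4]
    conv_lhs => rw [e1, e2]
    ring
  have e7 : 0 ≤ Real.sin (arg z - arg (z - 1)) :=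
    Real.sin_nonneg_of_nonneg_of_le_pi (by linarith) (by linarith)
  have e8 : 0 ≤ ‖z‖ * ‖z - 1‖ * Real.sin (arg z - arg (z - 1)) := by positivity
  rw [← e6, e5] at e8
  linarith

/-- strict concavity: `λ sin s < sin (λ s)` -/
theorem mul_sin_lt {l s : ℝ} (hl : 0 < l) (hl1 : l < 1) (hs : 0 < s) (hs1 : s < Real.pi) :
    l * Real.sin s < Real.sin (l * s) := by
  have h := strictConcaveOn_sin_Icc.2 (x := s) ⟨hs.le, hs1.le⟩ (y := 0) ⟨le_refl _, Real.pi_pos.le⟩
    hs.ne' hl (by linarith : (0 : ℝ) < 1 - l) (by ring)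
  simpa using h

/-- law of sines in the triangle `0, 1, z` -/
theorem norm_mul_sin {z : ℂ} :
    ‖z‖ * Real.sin (arg z + (Real.pi - arg (z - 1))) = Real.sin (arg (z - 1)) ∧
    ‖z - 1‖ * Real.sin (arg z + (Real.pi - arg (z - 1))) = Real.sin (arg z) := by
  have e1 : z.re = ‖z‖ * Real.cos (arg z) := (norm_mul_cos_arg z).symm
  have e2 : z.im = ‖z‖ * Real.sin (arg z) := (norm_mul_sin_arg z).symm
  have e3 : (z - 1).re = ‖z - 1‖ * Real.cos (arg (z - 1)) := (norm_mul_cos_arg (z - 1)).symm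
  have e4 : (z - 1).im = ‖z - 1‖ * Real.sin (arg (z - 1)) := (norm_mul_sin_arg (z - 1)).symm
  have e5 : (z - 1).re = z.re - 1 := by simp
  have e6 : (z - 1).im = z.im := by simp
  have hs : Real.sin (arg z + (Real.pi - arg (z - 1)))
      = - (Real.sin (arg z) * Real.cos (arg (z - 1)) - Real.cos (arg z) * Real.sin (arg (z - 1))) := by
    rw [← add_sub_assoc, Real.sin_sub, Real.sin_add, Real.cos_add]
    simp
    ring
  have hsc1 := Real.sin_sq_add_cos_sq (arg z)
  have hsc2 := Real.sin_sq_add_cos_sq (arg (z - 1))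
  rw [hs]
  have f1 : ‖z - 1‖ * Real.sin (arg (z - 1)) = ‖z‖ * Real.sin (arg z) := by
    rw [← e4, ← e2, e6]
  have f2 : ‖z - 1‖ * Real.cos (arg (z - 1)) = ‖z‖ * Real.cos (arg z) - 1 := by
    rw [← e3, ← e1, e5]
  constructor
  · have : ‖z‖ * -(Real.sin (arg z) * Real.cos (arg (z - 1)) - Real.cos (arg z) * Real.sin (arg (z - 1)))
        = - (‖z‖ * Real.sin (arg z)) * Real.cos (arg (z - 1))
          + (‖z‖ * Real.cos (arg z)) * Real.sin (arg (z - 1)) := by ring
    rw [this, ← f1]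
    have : ‖z‖ * Real.cos (arg z) = ‖z - 1‖ * Real.cos (arg (z - 1)) + 1 := by linarith
    rw [this]; ring
  · have : ‖z - 1‖ * -(Real.sin (arg z) * Real.cos (arg (z - 1)) - Real.cos (arg z) * Real.sin (arg (z - 1)))
        = - Real.sin (arg z) * (‖z - 1‖ * Real.cos (arg (z - 1)))
          + Real.cos (arg z) * (‖z - 1‖ * Real.sin (arg (z - 1))) := by ring
    rw [this, f1, f2]; ring

theorem tip_lt {a : ℝ} (ha : 0 < a) (ha1 : a < 1) {z : ℂ} (h : 0 < z.im)
    (hg : (g a z).im = a * Real.pi) : tipR a < (g a z).re := by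
  rw [g_im] at hg
  have h0 := arg_pos_of_im_pos h
  have h3 := arg_lt_pi_of_im_pos (z := z - 1) (by rw [sub_one_im]; exact h)
  have h4 := arg_lt_arg_sub_one h
  set s := arg z + (Real.pi - arg (z - 1)) with hs
  have hs0 : 0 < s := by linarith
  have hs1 : s < Real.pi := by linarith
  have hα : arg z = a * s := by rw [hs]; linarith
  have hγ : Real.pi - arg (z - 1) = (1 - a) * s := by rw [hs]; linarith
  obtain ⟨k1, k2⟩ := norm_mul_sin (z := z)
  rw [← hs] at k1 k2
  have hsin : 0 < Real.sin s := Real.sin_pos_of_pos_of_lt_pi hs0 hs1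
  have l1 : 1 - a < ‖z‖ := by
    have : (1 - a) * Real.sin s < Real.sin ((1 - a) * s) :=
      mul_sin_lt (by linarith) (by linarith) hs0 hs1
    rw [← hγ, Real.sin_pi_sub, ← k1] at this
    exact lt_of_mul_lt_mul_right this hsin.le
  have l2 : a < ‖z - 1‖ := by
    have : a * Real.sin s < Real.sin (a * s) := mul_sin_lt ha ha1 hs0 hs1
    rw [← hα, ← k2] at this
    exact lt_of_mul_lt_mul_right this hsin.le
  rw [g_re, tipR]
  have m1 : Real.log (1 - a) < Real.log ‖z‖ := Real.log_lt_log (by linarith) l1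
  have m2 : Real.log a < Real.log ‖z - 1‖ := Real.log_lt_log ha l2
  nlinarith

theorem mapsTo_phi {a : ℝ} (ha : 0 < a) (ha1 : a < 1) : MapsTo (phi a) UH (slitStrip a) := by
  intro z hz
  have hz' : 0 < z.im := hz
  have h0 := arg_pos_of_im_pos hz'
  have h1 := arg_lt_pi_of_im_pos hz'
  have h2 := arg_pos_of_im_pos (z := z - 1) (by rw [sub_one_im]; exact hz')
  have h3 := arg_lt_pi_of_im_pos (z := z - 1) (by rw [sub_one_im]; exact hz')
  have hpi := Real.pi_pos
  refine ⟨?_, ?_, ?_⟩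
  · rw [phi_re, g_im]
    apply div_pos _ hpi
    have := mul_pos (by linarith : 0 < 1 - a) h0
    have := mul_pos ha h2
    linarith
  · rw [phi_re, g_im, div_lt_one hpi]
    nlinarith
  · rintro ⟨k1, k2⟩
    rw [phi_re, div_eq_iff hpi.ne'] at k1
    have := tip_lt ha ha1 hz' k1
    rw [phi_im] at k2
    have : -((g a z).re - tipR a) / Real.pi < 0 := div_neg_of_neg_of_pos (by linarith) hpi
    linarith

/-! ### continuity up to the boundary -/

/-- closed upper half plane without `0` and `1` -/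
def CH : Set ℂ := {z | 0 ≤ z.im} \ {0, 1}

theorem continuousWithinAt_log {z : ℂ} (h : 0 ≤ z.im) (h0 : z ≠ 0) :
    ContinuousWithinAt log {z : ℂ | 0 ≤ z.im} z := by
  by_cases hz : z ∈ slitPlane
  · exact (continuousAt_clog hz).continuousWithinAt
  · rw [mem_slitPlane_iff] at hz
    push Not at hz
    have h1 : z.re < 0 := by
      rcases hz.1.lt_or_eq with h2 | h2
      · exact h2
      · exact absurd (Complex.ext h2 hz.2) h0
    exact continuousWithinAt_log_of_re_neg_of_im_zero h1 hz.2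

theorem continuousWithinAt_g (a : ℝ) {z : ℂ} (h : 0 ≤ z.im) (h0 : z ≠ 0) (h1 : z ≠ 1) :
    ContinuousWithinAt (g a) {z : ℂ | 0 ≤ z.im} z := by
  have e1 := continuousWithinAt_log h h0
  have e2 : ContinuousWithinAt (fun w : ℂ => log (w - 1)) {z : ℂ | 0 ≤ z.im} z := by
    have e3 : ContinuousWithinAt log {z : ℂ | 0 ≤ z.im} (z - 1) :=
      continuousWithinAt_log (by rw [sub_one_im]; exact h) (sub_ne_zero.2 h1)
    have e4 : ContinuousWithinAt (fun w : ℂ => w - 1) {z : ℂ | 0 ≤ z.im} z :=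
      (continuous_id.sub continuous_const).continuousWithinAt
    have e5 : MapsTo (fun w : ℂ => w - 1) {z : ℂ | 0 ≤ z.im} {z : ℂ | 0 ≤ z.im} := fun w hw => by
      show 0 ≤ (w - 1).im
      rw [sub_one_im]; exact hw
    exact ContinuousWithinAt.comp (f := fun w : ℂ => w - 1) e3 e4 e5
  exact (continuousWithinAt_const.mul e1).add (continuousWithinAt_const.mul e2)

theorem continuousWithinAt_phi (a : ℝ) {z : ℂ} (h : 0 ≤ z.im) (h0 : z ≠ 0) (h1 : z ≠ 1) :
    ContinuousWithinAt (phi a) {z : ℂ | 0 ≤ z.im} z :=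
  (continuousWithinAt_const.mul ((continuousWithinAt_g a h h0 h1).sub
    continuousWithinAt_const)).div_const _

theorem continuousOn_phi (a : ℝ) : ContinuousOn (phi a) CH := by
  intro z hz
  have h0 : z ≠ 0 := fun h => hz.2 (by rw [h]; simp)
  have h1 : z ≠ 1 := fun h => hz.2 (by rw [h]; simp)
  exact (continuousWithinAt_phi a hz.1 h0 h1).mono sdiff_subset

theorem differentiableAt_phi (a : ℝ) {z : ℂ} (h : 0 < z.im) : DifferentiableAt ℂ (phi a) z := by
  have h1 : DifferentiableAt ℂ (g a) z := (hasDerivAt_g a h).differentiableAt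
  exact ((h1.sub_const _).const_mul _).div_const _

/-! ### boundary values -/

/-- the real part of `g` on the real line -/
def RR (a x : ℝ) : ℝ := (1 - a) * Real.log x + a * Real.log (x - 1)

theorem g_re_ofReal (a x : ℝ) : (g a (x : ℂ)).re = RR a x := by
  rw [g_re, RR]
  have h1 : ‖(x : ℂ)‖ = |x| := by simp
  have h2 : ‖(x : ℂ) - 1‖ = |x - 1| := by
    rw [← ofReal_one, ← ofReal_sub, norm_real, Real.norm_eq_abs]
  rw [h1, h2, Real.log_abs, Real.log_abs]

theorem phi_im_ofReal (a x : ℝ) : (phi a (x : ℂ)).im = -(RR a x - tipR a) / Real.pi := by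
  rw [phi_im, g_re_ofReal]

theorem g_im_neg (a : ℝ) {x : ℝ} (h : x < 0) : (g a (x : ℂ)).im = Real.pi := by
  rw [g_im, arg_ofReal_of_neg h, ← ofReal_one, ← ofReal_sub, arg_ofReal_of_neg (by linarith)]
  ring

theorem g_im_mid (a : ℝ) {x : ℝ} (h : 0 < x) (h1 : x < 1) : (g a (x : ℂ)).im = a * Real.pi := by
  rw [g_im, arg_ofReal_of_nonneg h.le, ← ofReal_one, ← ofReal_sub, arg_ofReal_of_neg (by linarith)]
  ring

theorem g_im_right (a : ℝ) {x : ℝ} (h : 1 < x) : (g a (x : ℂ)).im = 0 := by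
  rw [g_im, arg_ofReal_of_nonneg (by linarith), ← ofReal_one, ← ofReal_sub,
    arg_ofReal_of_nonneg (by linarith)]
  ring

theorem phi_re_neg (a : ℝ) {x : ℝ} (h : x < 0) : (phi a (x : ℂ)).re = 1 := by
  rw [phi_re, g_im_neg a h, div_self Real.pi_ne_zero]

theorem phi_re_mid (a : ℝ) {x : ℝ} (h : 0 < x) (h1 : x < 1) : (phi a (x : ℂ)).re = a := by
  rw [phi_re, g_im_mid a h h1, mul_div_assoc, div_self Real.pi_ne_zero, mul_one]

theorem phi_re_right (a : ℝ) {x : ℝ} (h : 1 < x) : (phi a (x : ℂ)).re = 0 := by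
  rw [phi_re, g_im_right a h, zero_div]

theorem RR_le {a : ℝ} (ha : 0 < a) (ha1 : a < 1) {x : ℝ} (h : 0 < x) (h1 : x < 1) :
    RR a x ≤ tipR a := by
  have e1 : Real.log (x / (1 - a)) ≤ x / (1 - a) - 1 :=
    Real.log_le_sub_one_of_pos (div_pos h (by linarith))
  have e2 : Real.log ((1 - x) / a) ≤ (1 - x) / a - 1 :=
    Real.log_le_sub_one_of_pos (div_pos (by linarith) ha)
  rw [Real.log_div h.ne' (by linarith : (1 - a) ≠ 0)] at e1
  rw [Real.log_div (by linarith : (1 - x) ≠ 0) ha.ne'] at e2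
  have e3 : Real.log (x - 1) = Real.log (1 - x) := by
    rw [← Real.log_neg_eq_log, neg_sub]
  rw [RR, tipR, e3]
  have f1 : (1 - a) * (Real.log x - Real.log (1 - a)) ≤ (1 - a) * (x / (1 - a) - 1) :=
    mul_le_mul_of_nonneg_left e1 (by linarith)
  have f2 : a * (Real.log (1 - x) - Real.log a) ≤ a * ((1 - x) / a - 1) :=
    mul_le_mul_of_nonneg_left e2 ha.le
  have f3 : (1 - a) * (x / (1 - a) - 1) = x - (1 - a) := by
    have : (1 - a) ≠ 0 := by linarith
    field_simp
  have f4 : a * ((1 - x) / a - 1) = 1 - x - a := by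
    field_simp
  rw [f3] at f1
  rw [f4] at f2
  linarith

/-! ### behaviour at `0`, `1` and at infinity -/

theorem re_g_atTop {a : ℝ} (ha : 0 < a) (ha1 : a < 1) {z : ℂ} {M : ℝ} (h : (g a z).re ≤ M) :
    ‖z‖ ≤ Real.exp M + 1 := by
  by_contra hcon
  push Not at hcon
  have h1 : Real.exp M < ‖z‖ - 1 := by linarith
  have h2 : 0 < Real.exp M := Real.exp_pos M
  have h3 : ‖z‖ - 1 ≤ ‖z - 1‖ := by
    have := norm_sub_norm_le z 1
    simpa using this
  have h4 : M < Real.log ‖z - 1‖ := by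
    rw [Real.lt_log_iff_exp_lt (by linarith)]; linarith
  have h5 : M < Real.log ‖z‖ := by
    rw [Real.lt_log_iff_exp_lt (by linarith)]; linarith
  rw [g_re] at h
  nlinarith

theorem tendsto_re_g_zero {a : ℝ} (ha1 : a < 1) :
    Tendsto (fun z : ℂ => (g a z).re) (𝓝[≠] 0) atBot := by
  have e1 : Tendsto (fun z : ℂ => (1 - a) * Real.log ‖z‖) (𝓝[≠] 0) atBot := by
    apply Tendsto.const_mul_atBot (by linarith)
    exact Real.tendsto_log_nhdsNE_zero.comp (by
      rw [tendsto_nhdsWithin_iff]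
      refine ⟨?_, ?_⟩
      · have : Tendsto (fun z : ℂ => ‖z‖) (𝓝 0) (𝓝 ‖(0 : ℂ)‖) := continuous_norm.tendsto _
        rw [norm_zero] at this
        exact this.mono_left nhdsWithin_le_nhds
      · filter_upwards [self_mem_nhdsWithin] with z hz
        simpa using hz)
  have e2 : Tendsto (fun z : ℂ => a * Real.log ‖z - 1‖) (𝓝[≠] 0) (𝓝 (a * Real.log ‖(0 : ℂ) - 1‖)) := by
    apply Tendsto.const_mul
    apply Tendsto.mono_left _ nhdsWithin_le_nhds
    apply Tendsto.log
    · exact ((continuous_id.sub continuous_const).norm).tendsto _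
    · simp
  have e3 := e1.atBot_add e2
  exact e3.congr (fun z => (g_re a z).symm)

theorem tendsto_re_g_one {a : ℝ} (ha : 0 < a) :
    Tendsto (fun z : ℂ => (g a z).re) (𝓝[≠] 1) atBot := by
  have e1 : Tendsto (fun z : ℂ => a * Real.log ‖z - 1‖) (𝓝[≠] 1) atBot := by
    apply Tendsto.const_mul_atBot ha
    exact Real.tendsto_log_nhdsNE_zero.comp (by
      rw [tendsto_nhdsWithin_iff]
      refine ⟨?_, ?_⟩
      · have : Tendsto (fun z : ℂ => ‖z - 1‖) (𝓝 1) (𝓝 ‖(1 : ℂ) - 1‖) :=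
          ((continuous_id.sub continuous_const).norm).tendsto _
        rw [sub_self, norm_zero] at this
        exact this.mono_left nhdsWithin_le_nhds
      · filter_upwards [self_mem_nhdsWithin] with z hz
        simpa [sub_eq_zero] using hz)
  have e2 : Tendsto (fun z : ℂ => (1 - a) * Real.log ‖z‖) (𝓝[≠] 1) (𝓝 ((1 - a) * Real.log ‖(1 : ℂ)‖)) := by
    apply Tendsto.const_mul
    apply Tendsto.mono_left _ nhdsWithin_le_nhds
    apply Tendsto.log
    · exact continuous_norm.tendsto _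
    · simp
  have e3 := e2.add_atBot e1
  exact e3.congr (fun z => (g_re a z).symm)

theorem tendsto_im_phi_of {a : ℝ} {l : Filter ℂ} (h : Tendsto (fun z : ℂ => (g a z).re) l atBot) :
    Tendsto (fun z : ℂ => (phi a z).im) l atTop := by
  have h1 : Tendsto (fun z : ℂ => (g a z).re - tipR a) l atBot :=
    tendsto_atBot_add_const_right l _ h
  have h2 := (tendsto_neg_atBot_atTop.comp h1).atTop_div_const Real.pi_pos
  exact h2.congr (fun z => (phi_im a z).symm)

theorem tendsto_im_phi_cocompact {a : ℝ} (ha : 0 < a) (ha1 : a < 1) :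
    Tendsto (fun z : ℂ => (phi a z).im) (cocompact ℂ) atBot := by
  rw [tendsto_atBot]
  intro b
  rw [← Metric.cobounded_eq_cocompact, ← comap_norm_atTop]
  have h1 := (tendsto_comap (f := (norm : ℂ → ℝ)) (x := atTop)).eventually
    (eventually_gt_atTop (Real.exp (tipR a - b * Real.pi) + 1))
  filter_upwards [h1] with z hz
  by_contra hcon
  push Not at hcon
  rw [phi_im, lt_div_iff₀ Real.pi_pos] at hcon
  have := re_g_atTop ha ha1 (z := z) (M := tipR a - b * Real.pi) (by linarith)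
  linarith

/-! ### surjectivity -/

theorem isOpen_image_phi {a : ℝ} (ha : 0 < a) (ha1 : a < 1) : IsOpen (phi a '' UH) := by
  rw [isOpen_iff_mem_nhds]
  rintro _ ⟨z, hz, rfl⟩
  have hz' : 0 < z.im := hz
  have h1 : HasStrictDerivAt (g a) ((1 - a) * z⁻¹ + a * (z - 1)⁻¹) z := by
    have h2 : HasStrictDerivAt log z⁻¹ z := hasStrictDerivAt_log (mem_slitPlane_of_im_pos hz')
    have h3 : HasStrictDerivAt (fun w : ℂ => log (w - 1)) (z - 1)⁻¹ z := by
      have h4 : HasStrictDerivAt (fun w : ℂ => w - 1) 1 z := (hasStrictDerivAt_id z).sub_const 1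
      have h5 := h4.clog (mem_slitPlane_of_im_pos (z := z - 1) (by rw [sub_one_im]; exact hz'))
      simpa using h5
    exact (h2.const_mul _).add (h3.const_mul _)
  have h2 : HasStrictDerivAt (phi a) (-I * ((1 - a) * z⁻¹ + a * (z - 1)⁻¹) / Real.pi) z := by
    have h6 : HasStrictDerivAt (fun w => g a w - tipR a) ((1 - a) * z⁻¹ + a * (z - 1)⁻¹) z :=
      h1.sub_const _
    have h7 : HasStrictDerivAt (fun w => -I * (g a w - tipR a))
        (-I * ((1 - a) * z⁻¹ + a * (z - 1)⁻¹)) z := h6.const_mul _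
    exact h7.div_const _
  have hne : (-I * ((1 - a) * z⁻¹ + a * (z - 1)⁻¹) / Real.pi : ℂ) ≠ 0 := by
    apply div_ne_zero _ (by exact_mod_cast Real.pi_ne_zero)
    apply mul_ne_zero (neg_ne_zero.2 I_ne_zero)
    intro h0
    have := deriv_im_neg ha ha1 hz'
    rw [h0] at this
    simp at this
  rw [← h2.map_nhds_eq hne]
  apply image_mem_map
  exact (isOpen_lt continuous_const continuous_im).mem_nhds hz

theorem isPreconnected_slitStrip (a : ℝ) (ha : 0 < a) (ha1 : a < 1) :
    IsPreconnected (slitStrip a) := by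
  have h : StarConvex ℝ ((a : ℂ) + -I) (slitStrip a) := by
    intro w hw s t hs ht hst
    have e1 : (s • ((a : ℂ) + -I) + t • w).re = s * a + t * w.re := by simp
    have e2 : (s • ((a : ℂ) + -I) + t • w).im = - s + t * w.im := by simp
    obtain ⟨h1, h2, h3⟩ := hw
    have hs' : s = 1 - t := by linarith
    refine ⟨?_, ?_, ?_⟩
    · rw [e1]
      rcases hs.lt_or_eq with k | k
      · have := mul_pos k ha
        have := mul_nonneg ht h1.le
        linarith
      · have : t = 1 := by linarith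
        rw [← k, this]; simpa using h1
    · rw [e1]
      rcases hs.lt_or_eq with k | k
      · have := mul_lt_mul_of_pos_left ha1 k
        have := mul_le_mul_of_nonneg_left h2.le ht
        linarith
      · have : t = 1 := by linarith
        rw [← k, this]; simpa using h2
    · rintro ⟨k1, k2⟩
      rw [e1] at k1
      rw [e2] at k2
      have k3 : t * (w.re - a) = 0 := by rw [hs'] at k1; linarith
      rcases mul_eq_zero.1 k3 with k4 | k4
      · rw [k4] at k2 hs'
        linarith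
      · apply h3
        refine ⟨by linarith, ?_⟩
        by_contra k5
        push Not at k5
        rcases ht.lt_or_eq with k6 | k6
        · have := mul_neg_of_pos_of_neg k6 k5
          linarith
        · rw [← k6] at k2 hs'
          linarith
  exact (h.isPathConnected (by
    refine ⟨by simpa using ha, by simpa using ha1, ?_⟩
    rintro ⟨_, k⟩
    simp at k
    linarith)).isConnected.isPreconnected

theorem phi_real_notMem {a : ℝ} (ha : 0 < a) (ha1 : a < 1) {x : ℝ} (h0 : x ≠ 0) (h1 : x ≠ 1) :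
    phi a (x : ℂ) ∉ slitStrip a := by
  rintro ⟨k1, k2, k3⟩
  rcases lt_or_gt_of_ne h0 with h | h
  · rw [phi_re_neg a h] at k2; linarith
  · rcases lt_or_gt_of_ne h1 with h' | h'
    · apply k3
      refine ⟨phi_re_mid a h h', ?_⟩
      rw [phi_im_ofReal]
      have := RR_le ha ha1 h h'
      apply div_nonneg _ Real.pi_pos.le
      linarith
    · rw [phi_re_right a h'] at k1; linarith

theorem surjOn_phi {a : ℝ} (ha : 0 < a) (ha1 : a < 1) : slitStrip a ⊆ phi a '' UH := by
  apply (isPreconnected_slitStrip a ha ha1).subset_of_closure_inter_subset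
    (isOpen_image_phi ha ha1)
  · refine ⟨phi a I, mapsTo_phi ha ha1 (by simp [UH]), ⟨I, by simp [UH], rfl⟩⟩
  · rintro w ⟨hw, hwD⟩
    obtain ⟨x, hx, hxw⟩ := mem_closure_iff_seq_limit.1 hw
    choose z hz hzx using hx
    have hre : Tendsto (fun n => (phi a (z n)).im) atTop (𝓝 w.im) := by
      have h1 : Tendsto (fun n => (x n).im) atTop (𝓝 w.im) :=
        (continuous_im.tendsto w).comp hxw
      exact h1.congr (fun n => by rw [hzx n])
    have hb : ∀ᶠ n in atTop, z n ∈ Metric.closedBall (0 : ℂ)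
        (Real.exp (tipR a - (w.im - 1) * Real.pi) + 1) := by
      have h2 : ∀ᶠ n in atTop, w.im - 1 < (phi a (z n)).im :=
        hre.eventually (lt_mem_nhds (by linarith))
      filter_upwards [h2] with n hn
      rw [phi_im, lt_div_iff₀ Real.pi_pos] at hn
      rw [mem_closedBall_zero_iff]
      exact re_g_atTop ha ha1 (by linarith)
    obtain ⟨y, -, φ, hφ, hy⟩ := tendsto_subseq_of_frequently_bounded
      Metric.isBounded_closedBall hb.frequently
    have hyim : 0 ≤ y.im := by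
      have h1 : Tendsto (fun n => (z (φ n)).im) atTop (𝓝 y.im) := (continuous_im.tendsto y).comp hy
      exact ge_of_tendsto h1 (Eventually.of_forall (fun n => (hz (φ n) : 0 < (z (φ n)).im).le))
    have hxw' : Tendsto (fun n => phi a (z (φ n))) atTop (𝓝 w) := by
      have h1 : Tendsto (fun n => x (φ n)) atTop (𝓝 w) := hxw.comp hφ.tendsto_atTop
      exact h1.congr (fun n => (hzx (φ n)).symm)
    have hre' : Tendsto (fun n => (phi a (z (φ n))).im) atTop (𝓝 w.im) :=
      (continuous_im.tendsto w).comp hxw'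
    rcases hyim.lt_or_eq with hpos | hzero
    · have h1 : Tendsto (fun n => phi a (z (φ n))) atTop (𝓝 (phi a y)) :=
        (differentiableAt_phi a hpos).continuousAt.tendsto.comp hy
      exact ⟨y, hpos, tendsto_nhds_unique h1 hxw'⟩
    · exfalso
      by_cases hy0 : y = 0
      · have h1 : Tendsto (fun n => z (φ n)) atTop (𝓝[≠] 0) := by
          rw [tendsto_nhdsWithin_iff]
          refine ⟨by rw [← hy0]; exact hy, Eventually.of_forall (fun n h => ?_)⟩
          have h2 : 0 < (z (φ n)).im := hz (φ n)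
          rw [h] at h2
          simp at h2
        have h3 := (tendsto_im_phi_of (tendsto_re_g_zero ha1)).comp h1
        exact not_tendsto_nhds_of_tendsto_atTop h3 _ hre'
      · by_cases hy1 : y = 1
        · have h1 : Tendsto (fun n => z (φ n)) atTop (𝓝[≠] 1) := by
            rw [tendsto_nhdsWithin_iff]
            refine ⟨by rw [← hy1]; exact hy, Eventually.of_forall (fun n h => ?_)⟩
            have h2 : 0 < (z (φ n)).im := hz (φ n)
            rw [h] at h2
            simp at h2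
          have h3 := (tendsto_im_phi_of (tendsto_re_g_one ha)).comp h1
          exact not_tendsto_nhds_of_tendsto_atTop h3 _ hre'
        · have h1 := continuousWithinAt_phi a hyim hy0 hy1
          have h2 : Tendsto (fun n => z (φ n)) atTop (𝓝[{z : ℂ | 0 ≤ z.im}] y) := by
            rw [tendsto_nhdsWithin_iff]
            refine ⟨hy, Eventually.of_forall (fun n => ?_)⟩
            show 0 ≤ (z (φ n)).im
            exact (hz (φ n) : 0 < (z (φ n)).im).le
          have h3 : phi a y = w := tendsto_nhds_unique (h1.tendsto.comp h2) hxw'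
          have h4 : y = ((y.re : ℝ) : ℂ) := Complex.ext (by simp) (by simp [← hzero])
          rw [← h3, h4] at hwD
          exact phi_real_notMem ha ha1 (fun h => hy0 (by rw [h4, h]; simp))
            (fun h => hy1 (by rw [h4, h]; simp)) hwD

theorem bijOn_phi {a : ℝ} (ha : 0 < a) (ha1 : a < 1) : BijOn (phi a) UH (slitStrip a) := by
  refine ⟨mapsTo_phi ha ha1, ?_, surjOn_phi ha ha1⟩
  intro z hz w hw h
  apply injOn_g ha ha1 hz hw
  rw [phi, phi, div_left_inj' (by exact_mod_cast Real.pi_ne_zero),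
    mul_right_inj' (neg_ne_zero.2 I_ne_zero), sub_left_inj] at h
  exact h

/-! ### the two sides of the slit -/

theorem tendsto_arg_sub_one {x : ℝ} (h1 : x < 1) :
    Tendsto (fun z : ℂ => arg (z - 1)) (𝓝[UH] (x : ℂ)) (𝓝 Real.pi) := by
  have e0 : ((x : ℂ) - 1).re < 0 := by simp; linarith
  have e1 := continuousWithinAt_arg_of_re_neg_of_im_zero (z := (x : ℂ) - 1) e0 (by simp)
  have e2 : arg ((x : ℂ) - 1) = Real.pi := by
    rw [← ofReal_one, ← ofReal_sub, arg_ofReal_of_neg (by linarith)]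
  rw [← e2]
  apply e1.tendsto.comp
  rw [tendsto_nhdsWithin_iff]
  refine ⟨((continuous_id.sub continuous_const).tendsto _).mono_left nhdsWithin_le_nhds, ?_⟩
  filter_upwards [self_mem_nhdsWithin] with z hz
  show 0 ≤ (z - 1).im
  rw [sub_one_im]
  exact (hz : 0 < z.im).le

theorem tendsto_arg_zero {x : ℝ} (h : 0 < x) :
    Tendsto (fun z : ℂ => arg z) (𝓝[UH] (x : ℂ)) (𝓝 0) := by
  have e1 : ContinuousAt arg (x : ℂ) := continuousAt_arg (by
    rw [mem_slitPlane_iff]; left; simpa using h)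
  have e2 : arg (x : ℂ) = 0 := arg_ofReal_of_nonneg h.le
  rw [← e2]
  exact e1.tendsto.mono_left nhdsWithin_le_nhds

theorem tendsto_norms {x : ℝ} (h : 0 < x) (h1 : x < 1) :
    Tendsto (fun z : ℂ => ‖z - 1‖ / ‖z‖) (𝓝[UH] (x : ℂ)) (𝓝 ((1 - x) / x)) := by
  have e1 : ContinuousAt (fun z : ℂ => ‖z - 1‖ / ‖z‖) (x : ℂ) := by
    apply ContinuousAt.div
    · exact (continuous_id.sub continuous_const).norm.continuousAt
    · exact continuous_norm.continuousAt
    · simp; exact h.ne'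
  have e2 : ‖(x : ℂ) - 1‖ / ‖(x : ℂ)‖ = (1 - x) / x := by
    rw [← ofReal_one, ← ofReal_sub, norm_real, norm_real, Real.norm_eq_abs, Real.norm_eq_abs,
      abs_of_pos h, abs_of_neg (by linarith), neg_sub]
  rw [← e2]
  exact e1.tendsto.mono_left nhdsWithin_le_nhds

theorem sin_ge {γ : ℝ} (h : 0 < γ) : γ * (1 - γ ^ 2 / 4) ≤ Real.sin γ := by
  have := Real.sin_gt_sub_cube h
  have h2 : 0 < γ ^ 3 := by positivity
  nlinarith

/-- sine rule: `‖z‖ sin (arg z) = ‖z-1‖ sin (π - arg (z-1))` -/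
theorem sine_rule (z : ℂ) : ‖z‖ * Real.sin (arg z) = ‖z - 1‖ * Real.sin (Real.pi - arg (z - 1)) := by
  rw [Real.sin_pi_sub, norm_mul_sin_arg, norm_mul_sin_arg, sub_one_im]

theorem side_right {a : ℝ} (ha : 0 < a) (ha1 : a < 1) {x : ℝ} (h : 0 < x) (h1 : x < 1 - a) :
    ∀ᶠ z in 𝓝[UH] (x : ℂ), a < (phi a z).re := by
  have hx1 : x < 1 := by linarith
  have t1 := tendsto_arg_sub_one hx1
  have t2 : Tendsto (fun z : ℂ => (1 - a) * (‖z - 1‖ / ‖z‖) * (1 - (Real.pi - arg (z - 1)) ^ 2 / 4))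
      (𝓝[UH] (x : ℂ)) (𝓝 ((1 - a) * ((1 - x) / x) * (1 - (Real.pi - Real.pi) ^ 2 / 4))) :=
    ((tendsto_norms h hx1).const_mul _).mul
      (tendsto_const_nhds.sub (((tendsto_const_nhds.sub t1).pow 2).div_const _))
  have hlim : a < (1 - a) * ((1 - x) / x) * (1 - (Real.pi - Real.pi) ^ 2 / 4) := by
    have : (1 - a) * ((1 - x) / x) * (1 - (Real.pi - Real.pi) ^ 2 / 4) = (1 - a) * (1 - x) / x := by
      rw [sub_self]; ring
    rw [this, lt_div_iff₀ h]
    nlinarith
  have ev1 := t2.eventually (lt_mem_nhds hlim)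
  have ev2 : ∀ᶠ z in 𝓝[UH] (x : ℂ), Real.pi - 1 < arg (z - 1) :=
    t1.eventually (lt_mem_nhds (by linarith))
  filter_upwards [ev1, ev2, self_mem_nhdsWithin] with z h2 h3 hz
  have hz' : 0 < z.im := hz
  have hz0 : 0 < ‖z‖ := norm_pos_iff.2 (by rintro rfl; simp at hz')
  set γ := Real.pi - arg (z - 1) with hγ
  have hγ0 : 0 < γ := by
    have := arg_lt_pi_of_im_pos (z := z - 1) (by rw [sub_one_im]; exact hz')
    linarith
  have hγ1 : γ ≤ 1 := by linarith
  have hα : Real.sin (arg z) ≤ arg z := Real.sin_le (arg_pos_of_im_pos hz').le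
  have hs := sine_rule z
  rw [← hγ] at hs
  have hs' : Real.sin (arg z) = ‖z - 1‖ / ‖z‖ * Real.sin γ := by
    field_simp; linarith
  have k1 := sin_ge hγ0
  have k2 : ‖z - 1‖ / ‖z‖ * (γ * (1 - γ ^ 2 / 4)) ≤ arg z := by
    have : ‖z - 1‖ / ‖z‖ * (γ * (1 - γ ^ 2 / 4)) ≤ ‖z - 1‖ / ‖z‖ * Real.sin γ :=
      mul_le_mul_of_nonneg_left k1 (by positivity)
    linarith
  have k3 : a * γ < (1 - a) * arg z := by
    have e1 : a * γ < (1 - a) * (‖z - 1‖ / ‖z‖) * (1 - γ ^ 2 / 4) * γ :=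
      mul_lt_mul_of_pos_right h2 hγ0
    have e2 : (1 - a) * (‖z - 1‖ / ‖z‖) * (1 - γ ^ 2 / 4) * γ
        = (1 - a) * (‖z - 1‖ / ‖z‖ * (γ * (1 - γ ^ 2 / 4))) := by ring
    have e3 := mul_le_mul_of_nonneg_left k2 (by linarith : 0 ≤ 1 - a)
    linarith
  rw [phi_re, g_im, lt_div_iff₀ Real.pi_pos]
  have : arg (z - 1) = Real.pi - γ := by rw [hγ]; ring
  rw [this]
  linarith

theorem side_left {a : ℝ} (ha : 0 < a) (ha1 : a < 1) {x : ℝ} (h : 1 - a < x) (h1 : x < 1) :
    ∀ᶠ z in 𝓝[UH] (x : ℂ), (phi a z).re < a := by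
  have hx0 : 0 < x := by linarith
  have t1 := tendsto_arg_zero hx0
  have t2 : Tendsto (fun z : ℂ => (1 - a) * (‖z - 1‖ / ‖z‖))
      (𝓝[UH] (x : ℂ)) (𝓝 ((1 - a) * ((1 - x) / x))) := (tendsto_norms hx0 h1).const_mul _
  have t3 : Tendsto (fun z : ℂ => a * (1 - (arg z) ^ 2 / 4))
      (𝓝[UH] (x : ℂ)) (𝓝 (a * (1 - (0 : ℝ) ^ 2 / 4))) :=
    (tendsto_const_nhds.sub ((t1.pow 2).div_const _)).const_mul _
  have hlim : (1 - a) * ((1 - x) / x) < a * (1 - (0 : ℝ) ^ 2 / 4) := by
    rw [← mul_div_assoc, div_lt_iff₀ hx0]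
    nlinarith
  have ev1 := t2.eventually_lt t3 hlim
  have ev2 : ∀ᶠ z in 𝓝[UH] (x : ℂ), arg z < 1 := t1.eventually (gt_mem_nhds one_pos)
  filter_upwards [ev1, ev2, self_mem_nhdsWithin] with z h2 h3 hz
  have hz' : 0 < z.im := hz
  have hz0 : 0 < ‖z‖ := norm_pos_iff.2 (by rintro rfl; simp at hz')
  have hz1 : 0 < ‖z - 1‖ := norm_pos_iff.2 (by
    intro h0
    have := sub_one_im z
    rw [h0] at this
    simp at this
    linarith)
  set γ := Real.pi - arg (z - 1) with hγ
  have hγ0 : 0 < γ := by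
    have := arg_lt_pi_of_im_pos (z := z - 1) (by rw [sub_one_im]; exact hz')
    linarith
  have hα0 := arg_pos_of_im_pos hz'
  have hγs : Real.sin γ ≤ γ := Real.sin_le hγ0.le
  have hs := sine_rule z
  rw [← hγ] at hs
  have k1 := sin_ge hα0
  -- `‖z‖ α (1-α²/4) ≤ ‖z-1‖ γ`
  have k2 : ‖z‖ * (arg z * (1 - (arg z) ^ 2 / 4)) ≤ ‖z - 1‖ * γ := by
    have e1 := mul_le_mul_of_nonneg_left k1 hz0.le
    have e2 := mul_le_mul_of_nonneg_left hγs hz1.le
    linarith
  have k3 : (1 - a) * ‖z - 1‖ < a * (1 - (arg z) ^ 2 / 4) * ‖z‖ := by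
    rw [← mul_div_assoc, div_lt_iff₀ hz0] at h2
    exact h2
  have k4 : (1 - a) * arg z < a * γ := by
    have e1 : (1 - a) * ‖z - 1‖ * arg z < a * (1 - (arg z) ^ 2 / 4) * ‖z‖ * arg z :=
      mul_lt_mul_of_pos_right k3 hα0
    have e2 := mul_le_mul_of_nonneg_left k2 ha.le
    have e3 : ‖z - 1‖ * ((1 - a) * arg z) < ‖z - 1‖ * (a * γ) := by
      calc ‖z - 1‖ * ((1 - a) * arg z) = (1 - a) * ‖z - 1‖ * arg z := by ring
        _ < a * (1 - (arg z) ^ 2 / 4) * ‖z‖ * arg z := e1
        _ = a * (‖z‖ * (arg z * (1 - (arg z) ^ 2 / 4))) := by ring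
        _ ≤ a * (‖z - 1‖ * γ) := e2
        _ = ‖z - 1‖ * (a * γ) := by ring
    exact lt_of_mul_lt_mul_left e3 hz1.le
  rw [phi_re, g_im, div_lt_iff₀ Real.pi_pos]
  have : arg (z - 1) = Real.pi - γ := by rw [hγ]; ring
  rw [this]
  linarith

/-! ### the boundary functions -/

/-- imaginary part of `phi` on the real line -/
def bd (a x : ℝ) : ℝ := (phi a (x : ℂ)).im

theorem bd_eq (a x : ℝ) : bd a x = -(RR a x - tipR a) / Real.pi := phi_im_ofReal a x

theorem hasDerivAt_bd (a : ℝ) {x : ℝ} (h0 : x ≠ 0) (h1 : x ≠ 1) :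
    HasDerivAt (bd a) (-(((1 - a) * x⁻¹ + a * (x - 1)⁻¹)) / Real.pi) x := by
  have e1 : HasDerivAt Real.log x⁻¹ x := Real.hasDerivAt_log h0
  have e2 : HasDerivAt (fun y : ℝ => Real.log (y - 1)) (x - 1)⁻¹ x := by
    have e3 : HasDerivAt (fun y : ℝ => y - 1) 1 x := (hasDerivAt_id x).sub_const 1
    have e4 := e3.log (sub_ne_zero.2 h1)
    simpa using e4
  have e5 : HasDerivAt (RR a) ((1 - a) * x⁻¹ + a * (x - 1)⁻¹) x :=
    (e1.const_mul _).add (e2.const_mul _)
  have e6 : HasDerivAt (fun y => -(RR a y - tipR a) / Real.pi)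
      (-(((1 - a) * x⁻¹ + a * (x - 1)⁻¹)) / Real.pi) x := (e5.sub_const _).neg.div_const _
  have e7 : bd a = fun y => -(RR a y - tipR a) / Real.pi := funext (bd_eq a)
  rw [e7]; exact e6

theorem deriv_bd (a : ℝ) {x : ℝ} (h0 : x ≠ 0) (h1 : x ≠ 1) :
    deriv (bd a) x = ((1 - a) - x) / (x * (x - 1) * Real.pi) := by
  rw [(hasDerivAt_bd a h0 h1).deriv]
  have : x - 1 ≠ 0 := sub_ne_zero.2 h1
  have := Real.pi_ne_zero
  field_simp
  ring

theorem continuousAt_bd (a : ℝ) {x : ℝ} (h0 : x ≠ 0) (h1 : x ≠ 1) : ContinuousAt (bd a) x :=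
  (hasDerivAt_bd a h0 h1).continuousAt

theorem tendsto_bd_zero {a : ℝ} (ha1 : a < 1) : Tendsto (bd a) (𝓝[≠] 0) atTop := by
  have h1 : Tendsto (fun x : ℝ => (x : ℂ)) (𝓝[≠] 0) (𝓝[≠] 0) := by
    rw [tendsto_nhdsWithin_iff]
    refine ⟨?_, ?_⟩
    · have : Tendsto (fun x : ℝ => (x : ℂ)) (𝓝 0) (𝓝 ((0 : ℝ) : ℂ)) := continuous_ofReal.tendsto _
      rw [ofReal_zero] at this
      exact this.mono_left nhdsWithin_le_nhds
    · filter_upwards [self_mem_nhdsWithin] with x hx
      simpa using hx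
  exact (tendsto_im_phi_of (tendsto_re_g_zero ha1)).comp h1

theorem tendsto_bd_one {a : ℝ} (ha : 0 < a) : Tendsto (bd a) (𝓝[≠] 1) atTop := by
  have h1 : Tendsto (fun x : ℝ => (x : ℂ)) (𝓝[≠] 1) (𝓝[≠] 1) := by
    rw [tendsto_nhdsWithin_iff]
    refine ⟨?_, ?_⟩
    · have : Tendsto (fun x : ℝ => (x : ℂ)) (𝓝 1) (𝓝 ((1 : ℝ) : ℂ)) := continuous_ofReal.tendsto _
      rw [ofReal_one] at this
      exact this.mono_left nhdsWithin_le_nhds
    · filter_upwards [self_mem_nhdsWithin] with x hx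
      intro h
      apply hx
      have h2 : (x : ℂ) = ((1 : ℝ) : ℂ) := by simpa using h
      exact ofReal_injective h2
  exact (tendsto_im_phi_of (tendsto_re_g_one ha)).comp h1

theorem tendsto_bd_inf {a : ℝ} (ha : 0 < a) (ha1 : a < 1) {l : Filter ℝ}
    (hl : Tendsto (fun x : ℝ => |x|) l atTop) : Tendsto (bd a) l atBot := by
  have h1 : Tendsto (fun x : ℝ => (x : ℂ)) l (cocompact ℂ) := by
    rw [← Metric.cobounded_eq_cocompact, ← tendsto_norm_atTop_iff_cobounded]
    simpa using hl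
  exact (tendsto_im_phi_cocompact ha ha1).comp h1

theorem strictMonoOn_bd_neg {a : ℝ} (ha1 : a < 1) : StrictMonoOn (bd a) (Iio 0) := by
  apply strictMonoOn_of_deriv_pos (convex_Iio 0)
  · intro x hx
    have hx' : x < 0 := hx
    exact (continuousAt_bd a (by linarith) (by linarith)).continuousWithinAt
  · intro x hx
    rw [interior_Iio] at hx
    have hx' : x < 0 := hx
    rw [deriv_bd a (by linarith) (by linarith)]
    apply div_pos (by linarith)
    exact mul_pos (mul_pos_of_neg_of_neg hx' (by linarith)) Real.pi_pos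

theorem strictAntiOn_bd_right {a : ℝ} (ha : 0 < a) : StrictAntiOn (bd a) (Ioi 1) := by
  apply strictAntiOn_of_deriv_neg (convex_Ioi 1)
  · intro x hx
    have hx' : 1 < x := hx
    exact (continuousAt_bd a (by linarith) (by linarith)).continuousWithinAt
  · intro x hx
    rw [interior_Ioi] at hx
    have hx' : 1 < x := hx
    rw [deriv_bd a (by linarith) (by linarith)]
    apply div_neg_of_neg_of_pos (by linarith)
    exact mul_pos (mul_pos (by linarith) (by linarith)) Real.pi_pos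

theorem strictAntiOn_bd_mid {a : ℝ} (ha : 0 < a) : StrictAntiOn (bd a) (Ioc 0 (1 - a)) := by
  apply strictAntiOn_of_deriv_neg (convex_Ioc 0 _)
  · intro x hx
    exact (continuousAt_bd a (by linarith [hx.1]) (by linarith [hx.2])).continuousWithinAt
  · intro x hx
    rw [interior_Ioc] at hx
    rw [deriv_bd a (by linarith [hx.1]) (by linarith [hx.2])]
    apply div_neg_of_pos_of_neg (by linarith [hx.2])
    exact mul_neg_of_neg_of_pos (mul_neg_of_pos_of_neg hx.1 (by linarith [hx.2])) Real.pi_pos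

theorem strictMonoOn_bd_mid {a : ℝ} (ha1 : a < 1) : StrictMonoOn (bd a) (Ico (1 - a) 1) := by
  apply strictMonoOn_of_deriv_pos (convex_Ico _ _)
  · intro x hx
    exact (continuousAt_bd a (by linarith [hx.1]) (by linarith [hx.2])).continuousWithinAt
  · intro x hx
    rw [interior_Ico] at hx
    rw [deriv_bd a (by linarith [hx.1]) (by linarith [hx.2])]
    apply div_pos_of_neg_of_neg (by linarith [hx.1])
    exact mul_neg_of_neg_of_pos (mul_neg_of_pos_of_neg (by linarith [hx.1]) (by linarith [hx.2]))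
      Real.pi_pos

theorem bd_tip (a : ℝ) : bd a (1 - a) = 0 := by
  rw [bd_eq, RR, tipR]
  have : Real.log (1 - a - 1) = Real.log a := by
    rw [show (1 - a - 1 : ℝ) = -a by ring, Real.log_neg_eq_log]
  rw [this]
  simp

theorem phi_tip {a : ℝ} (ha : 0 < a) (ha1 : a < 1) : phi a (1 - a) = a := by
  have h1 : ((1 : ℂ) - a) = ((1 - a : ℝ) : ℂ) := by simp
  rw [h1]
  apply Complex.ext
  · rw [phi_re_mid a (by linarith) (by linarith), ofReal_re]
  · have := bd_tip a
    rw [bd] at this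
    rw [this, ofReal_im]

theorem bijOn_bd_neg {a : ℝ} (ha : 0 < a) (ha1 : a < 1) : BijOn (bd a) (Iio 0) univ := by
  refine ⟨mapsTo_univ _ _, (strictMonoOn_bd_neg ha1).injOn, ?_⟩
  apply isPreconnected_Iio.intermediate_value_Iii (l₁ := atBot) (l₂ := 𝓝[<] 0)
  · rw [le_principal_iff]; exact Iio_mem_atBot 0
  · rw [le_principal_iff]; exact self_mem_nhdsWithin
  · intro x hx
    have hx' : x < 0 := hx
    exact (continuousAt_bd a (by linarith) (by linarith)).continuousWithinAt
  · exact tendsto_bd_inf ha ha1 tendsto_abs_atBot_atTop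
  · exact (tendsto_bd_zero ha1).mono_left (nhdsWithin_mono _ (fun x hx => ne_of_lt hx))

theorem bijOn_bd_right {a : ℝ} (ha : 0 < a) (ha1 : a < 1) : BijOn (bd a) (Ioi 1) univ := by
  refine ⟨mapsTo_univ _ _, (strictAntiOn_bd_right ha).injOn, ?_⟩
  apply isPreconnected_Ioi.intermediate_value_Iii (l₁ := atTop) (l₂ := 𝓝[>] 1)
  · rw [le_principal_iff]; exact Ioi_mem_atTop 1
  · rw [le_principal_iff]; exact self_mem_nhdsWithin
  · intro x hx
    have hx' : 1 < x := hx
    exact (continuousAt_bd a (by linarith) (by linarith)).continuousWithinAt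
  · exact tendsto_bd_inf ha ha1 tendsto_abs_atTop_atTop
  · exact (tendsto_bd_one ha).mono_left (nhdsWithin_mono _ (fun x hx => ne_of_gt hx))

theorem bijOn_bd_mid1 {a : ℝ} (ha : 0 < a) (ha1 : a < 1) :
    BijOn (bd a) (Ioo 0 (1 - a)) (Ioi 0) := by
  have hanti := strictAntiOn_bd_mid ha
  refine ⟨?_, (hanti.mono Ioo_subset_Ioc_self).injOn, ?_⟩
  · intro x hx
    have := hanti (a := x) ⟨hx.1, hx.2.le⟩ (b := 1 - a) ⟨by linarith, le_refl _⟩ hx.2
    rw [bd_tip] at this
    exact this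
  · haveI : NeBot (𝓝[Ioo 0 (1 - a)] (1 - a)) := by
      apply mem_closure_iff_nhdsWithin_neBot.1
      rw [closure_Ioo (by linarith)]
      exact ⟨by linarith, le_refl _⟩
    haveI : NeBot (𝓝[Ioo 0 (1 - a)] (0 : ℝ)) := by
      apply mem_closure_iff_nhdsWithin_neBot.1
      rw [closure_Ioo (by linarith)]
      exact ⟨le_refl _, by linarith⟩
    apply isPreconnected_Ioo.intermediate_value_Ioi (l₁ := 𝓝[Ioo 0 (1 - a)] (1 - a))
      (l₂ := 𝓝[Ioo 0 (1 - a)] 0)
    · rw [le_principal_iff]; exact self_mem_nhdsWithin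
    · rw [le_principal_iff]; exact self_mem_nhdsWithin
    · intro x hx
      exact (continuousAt_bd a (by linarith [hx.1]) (by linarith [hx.2])).continuousWithinAt
    · have h1 : ContinuousAt (bd a) (1 - a) := continuousAt_bd a (by linarith) (by linarith)
      have h2 := h1.tendsto
      rw [bd_tip] at h2
      exact h2.mono_left nhdsWithin_le_nhds
    · exact (tendsto_bd_zero ha1).mono_left (nhdsWithin_mono _ (fun x hx => ne_of_gt hx.1))

theorem bijOn_bd_mid2 {a : ℝ} (ha : 0 < a) (ha1 : a < 1) :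
    BijOn (bd a) (Ioo (1 - a) 1) (Ioi 0) := by
  have hmono := strictMonoOn_bd_mid ha1
  refine ⟨?_, (hmono.mono Ioo_subset_Ico_self).injOn, ?_⟩
  · intro x hx
    have := hmono (a := 1 - a) ⟨le_refl _, by linarith⟩ (b := x) ⟨hx.1.le, hx.2⟩ hx.1
    rw [bd_tip] at this
    exact this
  · haveI : NeBot (𝓝[Ioo (1 - a) 1] (1 - a)) := by
      apply mem_closure_iff_nhdsWithin_neBot.1
      rw [closure_Ioo (by linarith)]
      exact ⟨le_refl _, by linarith⟩
    haveI : NeBot (𝓝[Ioo (1 - a) 1] (1 : ℝ)) := by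
      apply mem_closure_iff_nhdsWithin_neBot.1
      rw [closure_Ioo (by linarith)]
      exact ⟨by linarith, le_refl _⟩
    apply isPreconnected_Ioo.intermediate_value_Ioi (l₁ := 𝓝[Ioo (1 - a) 1] (1 - a))
      (l₂ := 𝓝[Ioo (1 - a) 1] 1)
    · rw [le_principal_iff]; exact self_mem_nhdsWithin
    · rw [le_principal_iff]; exact self_mem_nhdsWithin
    · intro x hx
      exact (continuousAt_bd a (by linarith [hx.1]) (by linarith [hx.2])).continuousWithinAt
    · have h1 : ContinuousAt (bd a) (1 - a) := continuousAt_bd a (by linarith) (by linarith)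
      have h2 := h1.tendsto
      rw [bd_tip] at h2
      exact h2.mono_left nhdsWithin_le_nhds
    · exact (tendsto_bd_one ha).mono_left (nhdsWithin_mono _ (fun x hx => ne_of_lt hx.2))

/-! ### the main theorem -/

/-- `φ` is a conformal bijection of the upper half plane onto the slit strip
`{0 < re < 1} ∖ {a + i y : y ≥ 0}`, continuous up to the real line except at `0` and `1`, which maps
* `(-∞, 0)` onto the right wall `re = 1` (increasing height),
* `(0, 1-a)` onto the right side of the slit (decreasing height), `1-a` to the tip `a`,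
* `(1-a, 1)` onto the left side of the slit (increasing height),
* `(1, ∞)` onto the left wall `re = 0` (decreasing height);
* the points `0`, `1`, `∞` correspond to the upper end on the right of the slit, the upper end on the
  left of the slit, and the lower end. -/
structure IsSlitMap (a : ℝ) (φ : ℂ → ℂ) : Prop where
  holomorphic : DifferentiableOn ℂ φ {z | 0 < z.im}
  bijective : BijOn φ {z | 0 < z.im} {w | 0 < w.re ∧ w.re < 1 ∧ ¬ (w.re = a ∧ 0 ≤ w.im)}
  continuous : ContinuousOn φ ({z | 0 ≤ z.im} \ {0, 1})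
  right_wall : ∀ x : ℝ, x < 0 → (φ x).re = 1
  right_wall_bij : BijOn (fun x : ℝ => (φ x).im) (Iio 0) univ
  right_wall_mono : StrictMonoOn (fun x : ℝ => (φ x).im) (Iio 0)
  slit_right : ∀ x : ℝ, 0 < x → x < 1 - a →
    (φ x).re = a ∧ ∀ᶠ z in 𝓝[{z | 0 < z.im}] (x : ℂ), a < (φ z).re
  slit_right_bij : BijOn (fun x : ℝ => (φ x).im) (Ioo 0 (1 - a)) (Ioi 0)
  slit_right_anti : StrictAntiOn (fun x : ℝ => (φ x).im) (Ioc 0 (1 - a))
  tip : φ (1 - a) = a
  slit_left : ∀ x : ℝ, 1 - a < x → x < 1 →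
    (φ x).re = a ∧ ∀ᶠ z in 𝓝[{z | 0 < z.im}] (x : ℂ), (φ z).re < a
  slit_left_bij : BijOn (fun x : ℝ => (φ x).im) (Ioo (1 - a) 1) (Ioi 0)
  slit_left_mono : StrictMonoOn (fun x : ℝ => (φ x).im) (Ico (1 - a) 1)
  left_wall : ∀ x : ℝ, 1 < x → (φ x).re = 0
  left_wall_bij : BijOn (fun x : ℝ => (φ x).im) (Ioi 1) univ
  left_wall_anti : StrictAntiOn (fun x : ℝ => (φ x).im) (Ioi 1)
  end_right : Tendsto (fun z : ℂ => (φ z).im) (𝓝[≠] 0) atTop
  end_left : Tendsto (fun z : ℂ => (φ z).im) (𝓝[≠] 1) atTop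
  end_lower : Tendsto (fun z : ℂ => (φ z).im) (cocompact ℂ) atBot

theorem isSlitMap_phi {a : ℝ} (ha : 0 < a) (ha1 : a < 1) : IsSlitMap a (phi a) where
  holomorphic := fun _ hz => (differentiableAt_phi a hz).differentiableWithinAt
  bijective := bijOn_phi ha ha1
  continuous := continuousOn_phi a
  right_wall := fun _ hx => phi_re_neg a hx
  right_wall_bij := bijOn_bd_neg ha ha1
  right_wall_mono := strictMonoOn_bd_neg ha1
  slit_right := fun _ h0 h1 => ⟨phi_re_mid a h0 (by linarith), side_right ha ha1 h0 h1⟩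
  slit_right_bij := bijOn_bd_mid1 ha ha1
  slit_right_anti := strictAntiOn_bd_mid ha
  tip := phi_tip ha ha1
  slit_left := fun _ h0 h1 => ⟨phi_re_mid a (by linarith) h1, side_left ha ha1 h0 h1⟩
  slit_left_bij := bijOn_bd_mid2 ha ha1
  slit_left_mono := strictMonoOn_bd_mid ha1
  left_wall := fun _ hx => phi_re_right a hx
  left_wall_bij := bijOn_bd_right ha ha1
  left_wall_anti := strictAntiOn_bd_right ha
  end_right := tendsto_im_phi_of (tendsto_re_g_zero ha1)
  end_left := tendsto_im_phi_of (tendsto_re_g_one ha)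
  end_lower := tendsto_im_phi_cocompact ha ha1

theorem exists_isSlitMap {a : ℝ} (ha : 0 < a) (ha1 : a < 1) : ∃ φ : ℂ → ℂ, IsSlitMap a φ :=
  ⟨phi a, isSlitMap_phi ha ha1⟩

end

end Pool.Agent.Helper15.Slit
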